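import Mathlib
import Pool.Agent.Y154.BQ.Fin

/-!
# Rational and numerical equivalence on products with almost all abelian varieties

Let `g i` (`i` in a finite set `I`) be positive integers, `r` an integer smaller than all the `g i`
and `E` a number field.  For a prime power `q` let `S i` be the set of the characteristic
polynomials of Frobenius of the ordinary abelian varieties of dimension `g i` over the field with `q`
elements, or of all abelian varieties of dimension `g i`, or any set in between.  By Weil, Honda and
Tate its elements correspond to the isogeny classes, the first set contains `ordinaryWeilPolys q
(g i)`, and the second one is contained in `weilPolys q (g i)`.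

For all families `f i` in `S i` with the exception of a proportion `O (q ^ (-1 / 6) log q)`, the
constant depending only on `g` and `E`, the following holds for all `s > 0`, `Q = q ^ s`, all
abelian varieties `A` over the field with `Q` elements which are isogenous to products of powers of
abelian varieties coming from the field with `q` elements, with characteristic polynomials `f i`,
and **all** smooth projective varieties `Z` over the field with `Q` elements such that

* the eigenvalues of Frobenius on the cohomology of `Z` and their conjugates generate a group of rank
  at most `r` modulo the group of the numbers with a power in `E`;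
* homologically trivial self-correspondences of degree zero of `A × Z` are nilpotent, for instance
  the motive of `Z` is finite-dimensional in the sense of Kimura and O'Sullivan. This is known for
  all varieties dominated by products of curves, and for their products with `A`.

There are finitely many products `D j` of divisors on `A`, of codimension `c j`, such that
`CH^n(A × Z)_ℚ = ⨁ D j × CH^(n - c j)(Z)_ℚ` for all `n`; the Kunneth formula
`⨁ CH^i(A)_ℚ ⊗ CH^(n-i)(Z)_ℚ = CH^n(A × Z)_ℚ` holds, and **the pairing**
`CH^n(A × Z)_ℝ × CH^(d-n)(A × Z)_ℝ → ℝ`, `d = dim A + dim Z`, **of the question is perfect if and
only if the pairings** `CH^m(Z)_ℝ × CH^(dim Z - m)(Z)_ℝ → ℝ` **with** `n - dim A ≤ m ≤ n` **are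
perfect.** In particular the conjecture of Beilinson for `A × Z` is equivalent to the one for `Z`,
degree by degree.

For `Z` a curve or a surface with the two properties all pairings for `Z` are perfect, by the
theorems quoted in the question, and so are all pairings for `A × Z`, for almost all `A` of any
dimension and all `Z` (which is fixed, or varies with `q` in a set of varieties for which the
rank of the Frobenius eigenvalues modulo `E` is at most `r`).

For `r = 0` the assumption on the eigenvalues is: the eigenvalues of Frobenius and their conjugates
have powers in `E`.  If for instance `Z` is any given variety over the field with `q'` elements, one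
can take for `E` the field generated by the eigenvalues of Frobenius and their conjugates, and
applies the theorem to the powers `q` of `q'`.

The framework (`TheoryData`, `IsChow`, `IsWeil`, `IsSituation`) is the one of helper492 and
helper484: the Chow groups `C` with rational coefficients, their pull-backs, push-forwards and
products, and a Weil cohomology theory `H` with coefficients in an algebraically closed field `K`, on
a class `𝒱` of smooth proper varieties over `k`.  The space `CH^n(X)_ℝ` is `ℝ ⊗ CH^n(X)`; this is
the tensor product over `ℚ` of `ℝ` with the Chow group with rational coefficients, hence the
tensor product over `ℤ` of `ℝ` with the Chow group.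

The idea of the proof: by a sieve (helper521), which only uses the primes that split completely in
the Galois closure of `E` - these have positive density by the theorem of Chebotarev, formalized by
helper401 - almost all families are such that each pair `α`, `q / α` of roots can be exchanged by a
Galois automorphism which fixes all the other roots of all the `f i` and also all elements of `E`.
It follows that the generalized eigenvectors of Frobenius in the cohomology of `A × Z` for the
eigenvalues `Q ^ i` are sums of products of classes of products of divisors on `A` and of classes on
`Z`. Let `p` be the projector given by the `D j` and dual classes `D' j`, and `P` a polynomial killing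
all the other eigenvalues and with `P (Q ^ i) = 1`. The correspondence `(1 - p) P (F)` is
homologically trivial, hence nilpotent; as it acts on `CH^i(A × Z)_ℚ` as the idempotent `1 - p`, this
idempotent is zero (helper484; the idea to play the eigenvalues of Frobenius off against nilpotence
is due to Soule, Geisser and Kahn).  So `CH^n(A × Z)_ℚ` is the sum of the `CH^(n - c j)(Z)_ℚ`, and
`deg ((D j × z) (D' l × w)) = δ_{jl} deg (z w)`: the pairing of the question for `A × Z` is the
orthogonal sum of the pairings for `Z`, and every `m` with `n - dim A ≤ m ≤ n` occurs, since the
powers of an ample divisor on `A` have non-zero classes.
-/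

set_option autoImplicit false

namespace Pool.Agent.Results.MP_4960c7_ag.AlmostAllAbelianPerfect

open Polynomial Pool.Agent.W521.Descent Pool.Agent.W521.Count Pool.Agent.W484.TB
  Pool.Agent.W484.CK Pool.Agent.Y154.BQ

/-- `weilPolys q g` is the set of monic integral polynomials of degree `2 g` with constant term
`q ^ g` and all roots of absolute value `√q`; `ordinaryWeilPolys q g` is the subset of those
whose coefficient of index `g` is prime to `q`. -/
theorem result {I : Type} [Fintype I] (g : I → ℕ) (r : ℕ) (hr : ∀ i, r < g i)
    (E : IntermediateField ℚ ℂ) [FiniteDimensional ℚ E] :
    ∃ C : ℝ, ∀ q : ℕ, IsPrimePow q → ∀ S : I → Set ℤ[X],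
      (∀ i, ordinaryWeilPolys q (g i) ⊆ S i ∧ S i ⊆ weilPolys q (g i)) →
      (∀ i, (S i).Finite ∧ (S i).Nonempty) ∧
      ({f : I → ℤ[X] | (∀ i, f i ∈ S i) ∧ ¬ PairingForRankOver E q r f}.ncard : ℝ) ≤
        C * (Real.log q * (q : ℝ) ^ (-(1 / 6) : ℝ)) * ∏ i, ((S i).ncard : ℝ) :=
  count_of_goodU (splitPrimes E) (dense_splitPrimes E) g
    (fun i => (Nat.zero_le r).trans_lt (hr i)) (fun q f => PairingForRankOver E q r f)
    fun _ hq x hx => pairingForRankOver_of_good g E hq.one_lt r hr x hx

end Pool.Agent.Results.MP_4960c7_ag.AlmostAllAbelianPerfect
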