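import Pool.Agent.Y101.Aq.FMain

/-!
# MP_4960c7_ag: perfect intersection pairings and the powers of the canonical classes of rational
varieties

Let `C` be the Chow theory (with rational coefficients) of a class of smooth projective varieties, which
has a finite-dimensional Weil cohomology theory `H`; let `deg` be the degree of zero-cycles, `D` the
theory of vector bundles, `can X` the canonical class of `X` and `R` the class of the rational
varieties. The following are equivalent.

1. For all `X`, of dimension `d`, and all `0 ≤ n ≤ d` the pairing
   `CH^n(X)_ℝ × CH^(d-n)(X)_ℝ → ℝ` is perfect.
2. For all `X` numerically trivial cycles are zero in `CH(X)_ℚ`.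
3. For all **rational** `X` and all `n ≥ 1`: if the power `K_X ^ n` of the **canonical class** is
   numerically trivial, then `K_X ^ n = 0` in `CH^n(X)_ℚ`.
4. For all rational `X` of even dimension `2 n` and all divisors `v` on `X`: if `v ^ n` is numerically
   trivial, then `v ^ n = 0` in `CH^n(X)_ℚ`.

Over a finite field these are Beilinson's conjecture and equivalent forms of it. Main steps of the proof
of (3 => 2):

* every element of the K-group of a projective variety is the difference of a vector bundle and a
  trivial bundle; so for a numerically trivial class `x` of codimension `i ≥ 2` on `X` there is a vector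
  bundle `E` with `ch(E) = (r + 1) - e ^ K_X + n x`, `n ≥ 1`, where `K_X` is the canonical class;
* then `c_1(E) = - K_X`, so the canonical class of `P(E)` is `- r ξ`;
* the Chern classes of `E ⊕ O(K_X)` are numerically trivial, and the relation between the powers of `ξ`
  multiplied by `ξ - K_X` shows that `ξ ^ (r + 1)` is numerically trivial; if it is zero, then the Chern
  classes of `E ⊕ O(K_X)` are zero, by descending the powers of `ξ`, and so is `x` by Newton's
  identities;
* every variety is the centre of a blow-up which is rational.
-/

set_option autoImplicit false

open CategoryTheory AlgebraicGeometry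

universe u v w w'

namespace Pool.Agent.Results.MP_4960c7_ag.CanonicalClassesDecide

open Pool.Agent.Y101.Aq Pool.Agent.H914 VarClass Obj Pool.Agent.W492.BB Pool.Agent.TH133

/-- **The intersection pairings of all varieties are perfect if and only if on the rational varieties
the numerically trivial powers of the canonical classes are zero in the Chow groups with rational
coefficients**; and an equivalent form with powers of divisors in the middle codimension. -/
theorem result {k : Type u} [Field k] {𝒱 : VarClass k} {C : TheoryData.{u, v, 0} 𝒱 ℚ}
    [IsChowProj C] {K : Type w} [Field K] (H : WeilTheoryData.{u, v, w} C K) [IsWeilProj H]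
    (hfin : ∀ X, Module.Finite K (H.A X)) {deg : ∀ X : 𝒱.Obj, C.A X →ₗ[ℚ] ℚ}
    (hdeg : IsDegree deg) {D : BundleData.{u, v, w'} C} (hD : IsBundleTheory D)
    {can : ∀ X : 𝒱.Obj, C.A X} (hcan : IsCanonical D can) {R : 𝒱.Obj → Prop}
    (hR : IsRationalClass D R) :
    List.TFAE [∀ X, PerfectPairings deg X, ∀ X, RatEqNum C X,
      ∀ X, R X → CanonicalPowerZero can X, ∀ X, R X → MiddlePowerZero D X] :=
  f_global hD H hfin hdeg hcan hR

end Pool.Agent.Results.MP_4960c7_ag.CanonicalClassesDecide
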