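import Pool.Agent.Y133.Chow.Perfect

/-!
# MP_4960c7_ag: an index law for the Chow groups of the powers of a variety

Let `X` be a smooth projective variety over a field `k`, for example a finite field. Let `b(n)` be
the dimension of the Chow ring of `X^n` with rational coefficients (possibly infinite) and `a(n)` the
dimension of its quotient modulo numerical equivalence. The quotients `b(n) / a(n)` converge to an
element `N` of `{1, 2, 3, …, ∞}`, and `N = 1` if and only if for all `n` the intersection pairings
`CH^p(X^n)_ℝ × CH^(d-p)(X^n)_ℝ → ℝ` are perfect. So if rational and numerical equivalence are
different on some power of `X`, then asymptotically the Chow groups of the powers are at least twice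
as large as their quotients modulo numerical equivalence. If `N` is finite, then for all numerically
trivial elements `z` on all powers of `X` the external product `z × z × ⋯ × z` with `N` factors is
zero in the Chow group with rational coefficients.

Main steps of the proof.

* The theory: the numerically trivial correspondences form an ideal; its elements on the powers of
  `X` are nilpotent if the index is finite: otherwise there is a nonzero idempotent `e` which is
  numerically trivial; conjugates of the powers of `e` with regular representations show that the
  dimensions of the Chow groups grow faster than a geometric progression with the ratio `(dim H(X))^2`,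
  along a subsequence, and then faster than `a(n)`.
* If the numerically trivial correspondences are nilpotent, the traces of the algebraic correspondences
  determine the spaces which they generate up to numerical equivalence on `H(X^n) ⊗ CH(X^m)`, and
  the method of blocks (for the algebra of the elements of `K ⊗ CH` on the powers of `X`) applies:
  the index of each system of subspaces of the Chow groups which is stable under correspondences is
  an integer or infinite, and it increases by at least one if the system increases.
* The last point is applied to the system of the numerically trivial elements and, for the external
  products, to the systems generated by the elements `z × ⋯ × z` with `r` factors.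
-/

open CategoryTheory AlgebraicGeometry Filter Topology

universe u v w

namespace Pool.Agent.Results.MP_4960c7_ag.ChowIndex

open Pool.Agent.H914 Pool.Agent.H914.VarClass Pool.Agent.H914.VarClass.Obj
  Pool.Agent.H914.WeilCohomology Pool.Agent.W492.BB Pool.Agent.TH133 Pool.Agent.Y133.Chow
  Pool.Agent.Y129

variable {k : Type u} [Field k] {𝒱 : VarClass k} {ops : CycleOps 𝒱}

theorem result {W : WeilCohomology.{u, v} ops} {C : TheoryData.{u, w, 0} 𝒱 ℚ} [IsChowProj C]
    (c : ClassMap W C) (X : 𝒱.Obj) [Nontrivial (W.H X)] :
    ∃ N : ℕ∞, 1 ≤ N ∧ HasChowIndex ops C X N ∧
      (N = 1 ↔ ∀ n p : ℕ, p ≤ (pw X n).dim → PerfectPairing c (pw X n) p) ∧
      SmashNilpotent c X N :=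
  index_perfect c

end Pool.Agent.Results.MP_4960c7_ag.ChowIndex
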